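import Pool.Agent.R959.LD3.Final3

set_option autoImplicit false

/-!
# The Komlós conjecture for vectors with small entries and exponentially large supports

Vectors in the unit ball whose entries are at most `δ` in absolute value. First part: if the matrix
of the absolute values, with row `k` divided by `max 1 ‖row k‖`, has operator norm at most
`δ ^ (-ν)`, and every vector and every coordinate has at most `exp (δ ^ (-2 κ))` nonzero entries,
where `9 κ + ν < 2`, then some signing has bounded value (more precisely `O(max 1 ‖row k‖)` in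
coordinate `k`). Second part: this holds without the operator norm when every vector and
every coordinate has at most `δ ^ (-p)` nonzero entries, for every `p < 4`.
-/

open Finset

namespace Pool.Agent.Results.MP_c81d26_co.ExponentialSupports

theorem result :
    (∀ ν κ : ℝ, 0 ≤ ν → 0 < κ → 9 * κ + ν < 2 →
      ∃ C : ℝ, 0 < C ∧ ∀ δ : ℝ, 0 < δ → δ ≤ 1 →
        ∀ (d n : ℕ) (v : Fin n → EuclideanSpace ℝ (Fin d)),
        (∀ i, ‖v i‖ ≤ 1) → (∀ i k, |v i k| ≤ δ) →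
        (∀ x : Fin n → ℝ, ∑ k, (∑ i, |v i k| * |x i|) ^ 2 / max 1 (∑ i, (v i k) ^ 2) ≤
          δ ^ (-2 * ν) * ∑ i, x i ^ 2) →
        (∀ k, ({i | v i k ≠ 0}.ncard : ℝ) ≤ Real.exp (δ ^ (-2 * κ))) →
        (∀ i, ({k | v i k ≠ 0}.ncard : ℝ) ≤ Real.exp (δ ^ (-2 * κ))) →
        ∃ x : Fin n → ℝ, (∀ i, x i = 1 ∨ x i = -1) ∧
          ∀ k, |∑ i, x i * v i k| ≤ C * Real.sqrt (max 1 (∑ i, (v i k) ^ 2))) ∧
    (∀ p : ℝ, 0 ≤ p → p < 4 →
      ∃ C : ℝ, 0 < C ∧ ∀ δ : ℝ, 0 < δ → δ ≤ 1 →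
        ∀ (d n : ℕ) (v : Fin n → EuclideanSpace ℝ (Fin d)),
        (∀ i, ‖v i‖ ≤ 1) → (∀ i k, |v i k| ≤ δ) →
        (∀ k, ({i | v i k ≠ 0}.ncard : ℝ) ≤ δ ^ (-p)) →
        (∀ i, ({k | v i k ≠ 0}.ncard : ℝ) ≤ δ ^ (-p)) →
        ∃ x : Fin n → ℝ, (∀ i, x i = 1 ∨ x i = -1) ∧
          ∀ k, |∑ i, x i * v i k| ≤ C * Real.sqrt (max 1 (∑ i, (v i k) ^ 2))) :=
  ⟨fun ν κ hν hκ h => Pool.Agent.R959.LD3.cor_kom ν κ (Pool.Agent.R959.LD3.main3 ν κ hν hκ h),
    fun p hp0 hp => Pool.Agent.R959.LD3.cor_sparse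
      (fun ν κ hν hκ h => Pool.Agent.R959.LD3.main3 ν κ hν hκ h) p hp0 hp⟩

end Pool.Agent.Results.MP_c81d26_co.ExponentialSupports
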