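import Mathlib
import Pool.Agent.R522.Spec.Num

/-!
# The Komlós problem for vectors whose Gram matrix has few large eigenvalues

There is an absolute constant `C` with the following properties. Let `v_1, …, v_n` be vectors in
the Euclidean unit ball of `ℝ^d` with entries of absolute value at most `δ`, `0 < δ ≤ 1`.

(1) Let `E ⊆ [d]`, let `A` be a real `d × n` matrix and let `b_i ≥ 0`, with
`|v_j (i)| ≤ b_i A_ij` for all `i ∉ E` and all `j`. Let `λ > 0` and let `κ` be the sum of the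
eigenvalues of `Aᵀ A` which are greater than `λ²`, divided by `λ²`. Then there are signs `ε_j` with
`|∑ ε_j v_j (i)| ≤ C (1 + δ (1 + log (1/δ))^(3/2) √(log (2 + κ + |E|))) + 4 λ b_i` for all `i`.

(2) Let `w_1, …, w_n` be vectors in the unit ball of `ℝ^d`, such that for each coordinate at most
`r` of them are nonzero at it, and such that at most `N` eigenvalues of the matrix
`⟨|w_j|, |w_k|⟩` are greater than `K²`, where `K ≥ 1`. If `|v_j (i)| ≤ |w_j (i)|` for all `j` and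
all `i` outside a set of `q` coordinates, there is a signing of the `v_j` of value at most
`C (K + δ (1 + log (1/δ))^(3/2) √(log (2 + q + min (N r) n)))`.

The dimension and the number of vectors are arbitrary.

Proof of (1). Let `u_k` be orthonormal eigenvectors of `Aᵀ A` for the eigenvalues `μ_k`, and give
the index `j` the weight `p_j = ∑_{μ_k > λ²} μ_k u_k (j)²`, of total `κ λ²`. By Cauchy–Schwarz
`‖A 1_X‖² ≤ |X| (λ² + p (X))` for all `X ⊆ [n]`. So if `p (X) ≤ p ([n]) / (2 + κ)`, at most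
`|X| / 2` rows have `(A 1_X)_i > 2 λ`. A theorem of Bansal and Jiang (weighted form in the starting
library) gives a fractional signing with such a set `X` of fractional indices; it can be moved,
keeping the coordinates in `E` and all coordinates with a trace above `2 λ b_i`, until at most
`2 |E|` indices are fractional.
-/

set_option autoImplicit false

namespace Pool.Agent.Results.MP_c81d26_co.FewLargeGramEigenvalues

open Finset Pool.Agent.R522.Spec

/-- The sum of the eigenvalues of `Aᵀ A` (the squares of the singular values of `A`) which are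
greater than `lam ^ 2`, divided by `lam ^ 2`. -/
noncomputable def excess {d n : ℕ} (A : Matrix (Fin d) (Fin n) ℝ) (lam : ℝ) : ℝ :=
  (∑ k ∈ univ.filter (fun k =>
    lam ^ 2 < (Matrix.isHermitian_conjTranspose_mul_self A).eigenvalues k),
      (Matrix.isHermitian_conjTranspose_mul_self A).eigenvalues k) / lam ^ 2

/-- The matrix with the columns `|w_j|`; `(absMat w)ᵀ * absMat w` is the Gram matrix of the vectors
`|w_j|`. -/
def absMat {d n : ℕ} (w : Fin n → EuclideanSpace ℝ (Fin d)) : Matrix (Fin d) (Fin n) ℝ :=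
  fun i j => |w j i|

theorem excess_eq {d n : ℕ} (A : Matrix (Fin d) (Fin n) ℝ) (lam : ℝ) :
    excess A lam = exc A (lam ^ 2) := by
  unfold excess exc ev
  rw [Finset.sum_div]

theorem err_scale (δ L : ℝ) (hδ0 : 0 < δ) (hδ1 : δ ≤ 1) :
    err (1 / δ ^ 2) L * δ ≤ 3 * (1 + δ * (1 + Real.log (1 / δ)) ^ (3 / 2 : ℝ) * Real.sqrt L) := by
  set t : ℝ := 1 / δ ^ 2 with ht
  have hst : Real.sqrt t = 1 / δ := by
    rw [ht, Real.sqrt_div (by norm_num), Real.sqrt_one, Real.sqrt_sq hδ0.le]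
  have hld : 0 ≤ Real.log (1 / δ) := Real.log_nonneg (by
    rw [le_div_iff₀ hδ0]; linarith)
  have hlt : Real.log t = 2 * Real.log (1 / δ) := by
    rw [ht, one_div, one_div, Real.log_inv, Real.log_inv, Real.log_pow]
    push_cast
    ring
  have hp : (1 + Real.log t) ^ (3 / 2 : ℝ) ≤ 3 * (1 + Real.log (1 / δ)) ^ (3 / 2 : ℝ) := by
    have h4 : 1 + Real.log t ≤ 2 * (1 + Real.log (1 / δ)) := by rw [hlt]; linarith
    calc (1 + Real.log t) ^ (3 / 2 : ℝ) ≤ (2 * (1 + Real.log (1 / δ))) ^ (3 / 2 : ℝ) := by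
          apply Real.rpow_le_rpow _ h4 (by norm_num)
          rw [hlt]; linarith
      _ = 2 ^ (3 / 2 : ℝ) * (1 + Real.log (1 / δ)) ^ (3 / 2 : ℝ) :=
          Real.mul_rpow (by norm_num) (by linarith)
      _ ≤ 3 * (1 + Real.log (1 / δ)) ^ (3 / 2 : ℝ) := by
          gcongr
          have h5 : (2 : ℝ) ^ (3 / 2 : ℝ) = 2 * Real.sqrt 2 := by
            rw [show (3 / 2 : ℝ) = 1 + 1 / 2 by norm_num, Real.rpow_add (by norm_num),
              Real.rpow_one, ← Real.sqrt_eq_rpow]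
          have h6 : Real.sqrt 2 ≤ 3 / 2 := by
            rw [Real.sqrt_le_left (by norm_num)]
            norm_num
          linarith
  have hP0 : 0 ≤ (1 + Real.log (1 / δ)) ^ (3 / 2 : ℝ) := by positivity
  have hL0 : 0 ≤ Real.sqrt L := Real.sqrt_nonneg _
  unfold err
  rw [hst]
  calc (1 / δ + (1 + Real.log t) ^ (3 / 2 : ℝ) * Real.sqrt L) * δ
      ≤ (1 / δ + 3 * (1 + Real.log (1 / δ)) ^ (3 / 2 : ℝ) * Real.sqrt L) * δ := by gcongr
    _ = 1 + 3 * (δ * (1 + Real.log (1 / δ)) ^ (3 / 2 : ℝ) * Real.sqrt L) := by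
        field_simp
    _ ≤ _ := by
        linarith

theorem col_sq {d n : ℕ} (v : Fin n → EuclideanSpace ℝ (Fin d)) (hv : ∀ j, ‖v j‖ ≤ 1) (j : Fin n) :
    ∑ i, v j i ^ 2 ≤ 1 := by
  have h1 : ‖v j‖ ^ 2 ≤ 1 := by
    have := norm_nonneg (v j)
    have := hv j
    nlinarith
  rw [EuclideanSpace.norm_sq_eq] at h1
  refine le_trans (le_of_eq ?_) h1
  refine Finset.sum_congr rfl fun i _ => ?_
  rw [Real.norm_eq_abs, sq_abs]

theorem bound {d n : ℕ} (v : Fin n → EuclideanSpace ℝ (Fin d)) (δ : ℝ) (hv : ∀ j, ‖v j‖ ≤ 1)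
    (hδ0 : 0 < δ) (hδ1 : δ ≤ 1) (hδ : ∀ j i, |v j i| ≤ δ) (E : Finset (Fin d))
    (A : Matrix (Fin d) (Fin n) ℝ) (b : Fin d → ℝ) (lam : ℝ) (hlam : 0 < lam)
    (hb : ∀ i, 0 ≤ b i) (hdom : ∀ i, i ∉ E → ∀ j, |v j i| ≤ b i * A i j) :
    ∃ ε : Fin n → ℝ, (∀ j, ε j = 1 ∨ ε j = -1) ∧
      ∀ i, |(∑ j, ε j • v j) i| ≤
        15000000 * (1 + δ * (1 + Real.log (1 / δ)) ^ (3 / 2 : ℝ) *
          Real.sqrt (Real.log (2 + exc A (lam ^ 2) + E.card))) + 4 * lam * b i := by
  classical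
  have ht1 : 1 ≤ 1 / δ ^ 2 := by
    rw [le_div_iff₀ (by positivity)]
    nlinarith
  obtain ⟨χ, h1, h2⟩ := core (fun i j => v j i / δ) (1 / δ ^ 2) ht1
    (by
      intro i j
      rw [abs_div, abs_of_pos hδ0, div_le_one hδ0]
      exact hδ j i)
    (by
      intro j
      have e : ∑ i, (v j i / δ) ^ 2 = (∑ i, v j i ^ 2) / δ ^ 2 := by
        rw [Finset.sum_div]
        exact sum_congr rfl fun i _ => div_pow _ _ _
      rw [e]
      have := col_sq v hv j
      gcongr) E A (fun i => b i / δ) lam (fun i => div_nonneg (hb i) hδ0.le) hlam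
    (by
      intro i hi j
      rw [abs_div, abs_of_pos hδ0, div_mul_eq_mul_div]
      exact div_le_div_of_nonneg_right (hdom i hi j) hδ0.le)
  refine ⟨χ, h1, fun i => ?_⟩
  have h3 := h2 i
  have e1 : ∑ j, v j i / δ * χ j = (∑ j, χ j • v j) i / δ := by
    have e2 : (∑ j, χ j • v j) i = ∑ j, χ j * v j i := by simp
    rw [e2, Finset.sum_div]
    exact sum_congr rfl fun j _ => by ring
  rw [e1, abs_div, abs_of_pos hδ0, div_le_iff₀ hδ0] at h3
  refine h3.trans ?_
  have h4 := err_scale δ (Real.log (2 + exc A (lam ^ 2) + E.card)) hδ0 hδ1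
  have e3 : 4 * lam * (b i / δ) * δ = 4 * lam * b i := by field_simp
  rw [add_mul, e3]
  linarith

theorem result : ∃ C : ℝ,
    (∀ (d n : ℕ) (v : Fin n → EuclideanSpace ℝ (Fin d)) (δ : ℝ), (∀ j, ‖v j‖ ≤ 1) → 0 < δ →
      δ ≤ 1 → (∀ j i, |v j i| ≤ δ) →
      ∀ (E : Finset (Fin d)) (A : Matrix (Fin d) (Fin n) ℝ) (b : Fin d → ℝ) (lam : ℝ),
      0 < lam → (∀ i, 0 ≤ b i) → (∀ i, i ∉ E → ∀ j, |v j i| ≤ b i * A i j) →
      ∃ ε : Fin n → ℝ, (∀ j, ε j = 1 ∨ ε j = -1) ∧
        ∀ i, |(∑ j, ε j • v j) i| ≤ C * (1 + δ * (1 + Real.log (1 / δ)) ^ (3 / 2 : ℝ) *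
          Real.sqrt (Real.log (2 + excess A lam + E.card))) + 4 * lam * b i) ∧
    (∀ (d n r N : ℕ) (v w : Fin n → EuclideanSpace ℝ (Fin d)) (δ K : ℝ) (E : Finset (Fin d)),
      (∀ j, ‖v j‖ ≤ 1) → (∀ j, ‖w j‖ ≤ 1) → 0 < δ → δ ≤ 1 → (∀ j i, |v j i| ≤ δ) → 1 ≤ K →
      (∀ i, (univ.filter (fun j => w j i ≠ 0)).card ≤ r) →
      (univ.filter (fun k => K ^ 2 <
        (Matrix.isHermitian_conjTranspose_mul_self (absMat w)).eigenvalues k)).card ≤ N →
      (∀ i, i ∉ E → ∀ j, |v j i| ≤ |w j i|) →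
      ∃ ε : Fin n → ℝ, (∀ j, ε j = 1 ∨ ε j = -1) ∧
        ∀ i, |(∑ j, ε j • v j) i| ≤ C * (K + δ * (1 + Real.log (1 / δ)) ^ (3 / 2 : ℝ) *
          Real.sqrt (Real.log (2 + E.card + min (N * r : ℝ) n)))) := by
  classical
  refine ⟨15000004, ?_, ?_⟩
  · intro d n v δ hv hδ0 hδ1 hδ E A b lam hlam hb hdom
    obtain ⟨χ, h2, h3⟩ := bound v δ hv hδ0 hδ1 hδ E A b lam hlam hb hdom
    refine ⟨χ, h2, fun i => (h3 i).trans ?_⟩
    rw [excess_eq]
    have hld : 0 ≤ Real.log (1 / δ) := Real.log_nonneg (by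
      rw [le_div_iff₀ hδ0]; linarith)
    have e1 : 0 ≤ δ * (1 + Real.log (1 / δ)) ^ (3 / 2 : ℝ) *
          Real.sqrt (Real.log (2 + exc A (lam ^ 2) + E.card)) := by positivity
    linarith
  · intro d n r N v w δ K E hv hw hδ0 hδ1 hδ hK hr hN hvw
    obtain ⟨χ, h2, h3⟩ := bound v δ hv hδ0 hδ1 hδ E (absMat w) (fun _ => 1) K (by linarith)
      (fun _ => zero_le_one) (fun i hi j => by
        rw [one_mul]
        exact hvw i hi j)
    have hcolw : ∀ j, ∑ i, absMat w i j ^ 2 ≤ 1 := by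
      intro j
      have := col_sq w hw j
      simpa [absMat, sq_abs] using this
    have hex : exc (absMat w) (K ^ 2) ≤ min (N * r : ℝ) n := by
      have h := exc_le (absMat w) 1 K r N one_pos hK hcolw (fun i => ?_) (by
        rw [mul_one]; exact hN)
      · rwa [mul_one] at h
      · refine (card_le_card fun j hj => ?_).trans (hr i)
        rw [mem_filter] at hj ⊢
        exact ⟨hj.1, fun h => hj.2 (by simp [absMat, h])⟩
    have hex0 := exc_nonneg (absMat w) (K ^ 2) (by positivity)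
    have hEc : (0 : ℝ) ≤ E.card := Nat.cast_nonneg _
    have hld : 0 ≤ Real.log (1 / δ) := Real.log_nonneg (by
      rw [le_div_iff₀ hδ0]; linarith)
    have e6 : Real.sqrt (Real.log (2 + exc (absMat w) (K ^ 2) + E.card)) ≤
        Real.sqrt (Real.log (2 + E.card + min (N * r : ℝ) n)) :=
      Real.sqrt_le_sqrt (Real.log_le_log (by linarith) (by linarith))
    have e7 : δ * (1 + Real.log (1 / δ)) ^ (3 / 2 : ℝ) *
          Real.sqrt (Real.log (2 + exc (absMat w) (K ^ 2) + E.card)) ≤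
        δ * (1 + Real.log (1 / δ)) ^ (3 / 2 : ℝ) *
          Real.sqrt (Real.log (2 + E.card + min (N * r : ℝ) n)) :=
      mul_le_mul_of_nonneg_left e6 (by positivity)
    have e8 : 0 ≤ δ * (1 + Real.log (1 / δ)) ^ (3 / 2 : ℝ) *
          Real.sqrt (Real.log (2 + E.card + min (N * r : ℝ) n)) := by positivity
    refine ⟨χ, h2, fun i => (h3 i).trans ?_⟩
    linarith

end Pool.Agent.Results.MP_c81d26_co.FewLargeGramEigenvalues
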