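import Pool.Agent.R814.Lam.Real
import Pool.Agent.Results.MP_c81d26_co.SigningsCount

/-!
# Komlós with exact cardinality constraints on a laminar family

Let `v_1, …, v_n` be vectors in the Euclidean unit ball of `ℝ^d`, let `L` be a laminar family of
subsets of `[n]` (any two members are disjoint or nested), and let `x⁰ ∈ [0,1]^n` be arbitrary. We
look for a rounding `x ∈ {0,1}^n` for which `|x(S) - x⁰(S)| < 1` for every `S ∈ L` (so
`x(S) = x⁰(S)` if `x⁰(S)` is an integer) and for which all coordinates of `∑ (x_j - x⁰_j) v_j` are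
small.

(1) If all families of at most `n` vectors of the unit ball have signings of value at most `B`, then
there is such a rounding with all coordinates at most `2 B`.

(2) So there is always such a rounding with all coordinates at most
`C (1 + log (1 + min n d))^{1/4}`, `C` absolute.

(3) Komlós's conjecture holds if and only if there is a constant `c` such that there is always
such a rounding with all coordinates at most `c`.

For example one may choose exactly one vector from each of any number of finite families `V_i` of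
vectors such that the sum differs from any given sum of points of the convex hulls of the `V_i`
by at most this bound, or split the vectors into `k` classes with nearly equal sums and exactly
equal (or almost equal) sizes.

Proof: binary digits; in each step the indices with an odd numerator are grouped into pairs which
respect `L`, and a signing of the differences of the vectors of the pairs is used.
-/

set_option autoImplicit false

namespace Pool.Agent.Results.MP_c81d26_co.LaminarRounding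

/-- The vectors `v_1, …, v_n` lie in the closed Euclidean unit ball of `ℝ^d`. -/
def InBall {n d : ℕ} (v : Fin n → Fin d → ℝ) : Prop := ∀ i, ∑ k, v i k ^ 2 ≤ 1

/-- Some signing of the vectors has value at most `B`. -/
def HasSigning {n d : ℕ} (v : Fin n → Fin d → ℝ) (B : ℝ) : Prop :=
  ∃ ε : Fin n → ℝ, (∀ i, ε i = 1 ∨ ε i = -1) ∧ ∀ k, |∑ i, ε i * v i k| ≤ B

/-- `L` is a laminar family: any two members are disjoint, or one of them contains the other. -/
def Laminar {n : ℕ} (L : Set (Finset (Fin n))) : Prop :=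
  ∀ S ∈ L, ∀ T ∈ L, S ⊆ T ∨ T ⊆ S ∨ Disjoint S T

/-- The point `x₀ ∈ [0,1]^n` has a rounding `x ∈ {0,1}^n` for which `|x(S) - x₀(S)| < 1` for all
`S ∈ L` and all coordinates of `∑ (x_j - x₀_j) v_j` are at most `R` in absolute value. -/
def HasRounding {n d : ℕ} (v : Fin n → Fin d → ℝ) (L : Set (Finset (Fin n))) (x₀ : Fin n → ℝ)
    (R : ℝ) : Prop :=
  ∃ x : Fin n → ℝ, (∀ j, x j = 0 ∨ x j = 1) ∧ (∀ S ∈ L, |∑ j ∈ S, (x j - x₀ j)| < 1) ∧
    ∀ k, |∑ j, (x j - x₀ j) * v j k| ≤ R

theorem transfer (n d : ℕ) (B : ℝ)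
    (hB : ∀ k ≤ n, ∀ w : Fin k → Fin d → ℝ, InBall w → HasSigning w B)
    (v : Fin n → Fin d → ℝ) (L : Set (Finset (Fin n))) (x₀ : Fin n → ℝ) (hv : InBall v)
    (hL : Laminar L) (hx : ∀ j, 0 ≤ x₀ j ∧ x₀ j ≤ 1) : HasRounding v L x₀ (2 * B) := by
  obtain ⟨x, hx1, hx2, hx3⟩ := Pool.Agent.R814.Lam.rounding (L := L) hL v
    (fun w => ∑ k, w k ^ 2 ≤ 4) (fun a => (hv a).trans (by norm_num)) (fun a b => by
      have h1 : ∀ k, (v a k - v b k) ^ 2 ≤ 2 * (v a k) ^ 2 + 2 * (v b k) ^ 2 := by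
        intro k
        nlinarith [sq_nonneg (v a k + v b k)]
      refine (Finset.sum_le_sum fun k _ => h1 k).trans ?_
      rw [Finset.sum_add_distrib, ← Finset.mul_sum, ← Finset.mul_sum]
      have := hv a
      have := hv b
      linarith) (2 * B) (fun k hk w hw => by
      obtain ⟨ε, hε, hεB⟩ := hB k hk (fun i c => w i c / 2) (fun i => by
        simp_rw [div_pow]
        rw [← Finset.sum_div]
        have := hw i
        rw [div_le_one (by norm_num)]
        linarith)
      have hint : ∀ i, ∃ e : ℤ, (e = 1 ∨ e = -1) ∧ (e : ℝ) = ε i := by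
        intro i
        rcases hε i with h | h
        · exact ⟨1, Or.inl rfl, by rw [h]; norm_num⟩
        · exact ⟨-1, Or.inr rfl, by rw [h]; norm_num⟩
      choose e he1 he2 using hint
      refine ⟨e, he1, fun c => ?_⟩
      have h3 := hεB c
      have h4 : ∑ i, (e i : ℝ) * w i c = 2 * ∑ i, ε i * (w i c / 2) := by
        rw [Finset.mul_sum]
        refine Finset.sum_congr rfl fun i _ => ?_
        rw [he2 i]; ring
      rw [h4, abs_mul, abs_two]
      linarith) x₀ hx
  refine ⟨fun j => (x j : ℝ), fun j => ?_, hx2, hx3⟩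
  rcases hx1 j with h | h
  · left; simp [h]
  · right; simp [h]

theorem uncond : ∃ C : ℝ, ∀ (n d : ℕ) (v : Fin n → Fin d → ℝ), InBall v →
    HasSigning v (C * (1 + Real.log (1 + (min n d : ℕ))) ^ (1 / 4 : ℝ)) := by
  obtain ⟨C, hC⟩ := Pool.Agent.Results.MP_c81d26_co.SigningsCount.part2
  refine ⟨C + 1, fun n d v hv => ?_⟩
  have h1 := hC n d v 1 hv one_pos
  have h2 : (0:ℝ) < (Pool.Agent.Results.MP_c81d26_co.SigningsCount.count v
      (C * (1 + Real.log (1 + (min n d : ℕ))) ^ (1 / 4 : ℝ) + 1) : ℝ) :=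
    lt_of_lt_of_le (by positivity) h1
  have h3 : 0 < Pool.Agent.Results.MP_c81d26_co.SigningsCount.count v
      (C * (1 + Real.log (1 + (min n d : ℕ))) ^ (1 / 4 : ℝ) + 1) := by exact_mod_cast h2
  unfold Pool.Agent.Results.MP_c81d26_co.SigningsCount.count at h3
  obtain ⟨⟨ε, hε⟩⟩ := (Nat.card_pos_iff.1 h3).1
  refine ⟨fun i => ((ε i : ℤ) : ℝ),
    fun i => Pool.Agent.Results.MP_c81d26_co.SigningsCount.units_real _, fun k => ?_⟩
  refine (hε k).trans ?_
  have h4 : (1:ℝ) ≤ (1 + Real.log (1 + (min n d : ℕ))) ^ (1 / 4 : ℝ) := by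
    apply Real.one_le_rpow _ (by norm_num)
    have : 0 ≤ Real.log (1 + ((min n d : ℕ) : ℝ)) := Real.log_nonneg (by
      have : (0:ℝ) ≤ ((min n d : ℕ) : ℝ) := by positivity
      linarith)
    linarith
  linarith

theorem part2 : ∃ C : ℝ, ∀ (n d : ℕ) (v : Fin n → Fin d → ℝ) (L : Set (Finset (Fin n)))
    (x₀ : Fin n → ℝ), InBall v → Laminar L → (∀ j, 0 ≤ x₀ j ∧ x₀ j ≤ 1) →
    HasRounding v L x₀ (C * (1 + Real.log (1 + (min n d : ℕ))) ^ (1 / 4 : ℝ)) := by
  obtain ⟨C, hC⟩ := uncond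
  refine ⟨2 * |C|, fun n d v L x₀ hv hL hx => ?_⟩
  have h := transfer n d (|C| * (1 + Real.log (1 + (min n d : ℕ))) ^ (1 / 4 : ℝ))
    (fun k hk w hw => by
      obtain ⟨ε, hε, hεB⟩ := hC k d w hw
      refine ⟨ε, hε, fun c => (hεB c).trans ?_⟩
      have h0 : (0:ℝ) ≤ ((min k d : ℕ) : ℝ) := by positivity
      have h1 : 0 ≤ Real.log (1 + ((min k d : ℕ) : ℝ)) := Real.log_nonneg (by linarith)
      have h2 : ((min k d : ℕ) : ℝ) ≤ ((min n d : ℕ) : ℝ) := by
        exact_mod_cast min_le_min_right d hk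
      have h3 : Real.log (1 + ((min k d : ℕ) : ℝ)) ≤ Real.log (1 + ((min n d : ℕ) : ℝ)) :=
        Real.log_le_log (by linarith) (by linarith)
      have h4 : (1 + Real.log (1 + ((min k d : ℕ) : ℝ))) ^ (1 / 4 : ℝ) ≤
          (1 + Real.log (1 + ((min n d : ℕ) : ℝ))) ^ (1 / 4 : ℝ) :=
        Real.rpow_le_rpow (by linarith) (by linarith) (by norm_num)
      have h5 : 0 ≤ (1 + Real.log (1 + ((min k d : ℕ) : ℝ))) ^ (1 / 4 : ℝ) := by positivity
      exact (mul_le_mul_of_nonneg_right (le_abs_self C) h5).trans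
        (mul_le_mul_of_nonneg_left h4 (abs_nonneg C))) v L x₀ hv hL hx
  rwa [← mul_assoc] at h

theorem part3 :
    (∃ c : ℝ, 0 < c ∧ ∀ (n d : ℕ) (v : Fin n → Fin d → ℝ), InBall v → HasSigning v c) ↔
    ∃ c : ℝ, 0 < c ∧ ∀ (n d : ℕ) (v : Fin n → Fin d → ℝ) (L : Set (Finset (Fin n)))
      (x₀ : Fin n → ℝ), InBall v → Laminar L → (∀ j, 0 ≤ x₀ j ∧ x₀ j ≤ 1) →
      HasRounding v L x₀ c := by
  constructor
  · rintro ⟨c, hc, h⟩
    exact ⟨2 * c, by positivity, fun n d v L x₀ hv hL hx =>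
      transfer n d c (fun k _ w hw => h k d w hw) v L x₀ hv hL hx⟩
  · rintro ⟨c, hc, h⟩
    refine ⟨2 * c, by positivity, fun n d v hv => ?_⟩
    obtain ⟨x, hx1, _, hx3⟩ := h n d v ∅ (fun _ => 1 / 2) hv
      (fun S hS => absurd hS (Set.notMem_empty S)) (fun _ => by norm_num)
    refine ⟨fun j => 2 * x j - 1, fun j => ?_, fun k => ?_⟩
    · show 2 * x j - 1 = 1 ∨ 2 * x j - 1 = -1
      rcases hx1 j with h | h
      · right; rw [h]; norm_num
      · left; rw [h]; norm_num
    · have h4 : ∑ j, (2 * x j - 1) * v j k = 2 * ∑ j, (x j - 1 / 2) * v j k := by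
        rw [Finset.mul_sum]
        refine Finset.sum_congr rfl fun j _ => ?_
        ring
      rw [h4, abs_mul, abs_two]
      have := hx3 k
      linarith

/-- **Komlós with laminar constraints**: see the header of the file. -/
theorem result :
    (∀ (n d : ℕ) (B : ℝ), (∀ k ≤ n, ∀ w : Fin k → Fin d → ℝ, InBall w → HasSigning w B) →
      ∀ (v : Fin n → Fin d → ℝ) (L : Set (Finset (Fin n))) (x₀ : Fin n → ℝ), InBall v →
        Laminar L → (∀ j, 0 ≤ x₀ j ∧ x₀ j ≤ 1) → HasRounding v L x₀ (2 * B)) ∧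
    (∃ C : ℝ, ∀ (n d : ℕ) (v : Fin n → Fin d → ℝ) (L : Set (Finset (Fin n))) (x₀ : Fin n → ℝ),
      InBall v → Laminar L → (∀ j, 0 ≤ x₀ j ∧ x₀ j ≤ 1) →
      HasRounding v L x₀ (C * (1 + Real.log (1 + (min n d : ℕ))) ^ (1 / 4 : ℝ))) ∧
    ((∃ c : ℝ, 0 < c ∧ ∀ (n d : ℕ) (v : Fin n → Fin d → ℝ), InBall v → HasSigning v c) ↔
      ∃ c : ℝ, 0 < c ∧ ∀ (n d : ℕ) (v : Fin n → Fin d → ℝ) (L : Set (Finset (Fin n)))
        (x₀ : Fin n → ℝ), InBall v → Laminar L → (∀ j, 0 ≤ x₀ j ∧ x₀ j ≤ 1) →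
        HasRounding v L x₀ c) :=
  ⟨transfer, part2, part3⟩

end Pool.Agent.Results.MP_c81d26_co.LaminarRounding
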