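import Pool.Agent.R378.Rep
import Pool.Agent.Results.MP_c81d26_co.SigningsCount

/-!
# The Komlós problem with random turns and with online repair of random signs

Let `v_1, …, v_n` be known vectors in the Euclidean unit ball of `ℝ^d`. The signs `ε_1, …, ε_n` are
chosen in this order. Three online problems:

* Online repair: the signs are random and independent; the player sees them one after the other and
  may change each of them when he sees it. He wants to reach value at most `R` with few changes.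
* Random turns: before each sign is chosen a fair coin decides whether it is chosen by an adversary
  (who knows everything so far) or by the player; the player may buy the turns of the adversary. He
  wants to reach value at most `R`, for all adversaries, with few purchases.
* Fixed turns: the set `J` of the turns of the adversary is random, and known before the game. The
  player removes a set `E J` of a few turns from `J` (the decision about the turn `j` depends only
  on the turns up to `j`), and then he must reach value at most `R`, for all adversaries.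

(1) There is an absolute constant `C` such that for all `D > 0` and `s ≥ 0` in all three problems the
player always reaches the value `C (1 + log (1 + min n d))^{1/4} + D`, and the probability that he
has to pay more than `s` is at most `exp (15200 n / D² - s² / n)`; for `s = 124 n / D` it is at most
`exp (-176 n / D²)`.

(2) Komlós's conjecture holds if and only if there is a constant `C` such that for all families in
the unit ball and all `D ≥ C` the player always reaches the value `D` in all three problems, and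
pays more than `C n / D` with probability at most `exp (-n / D²)`.

(3) The cost `n / D` is best possible: for every `D ≥ 1` there are arbitrarily large families of unit
vectors such that in all three problems the mean cost of reaching the value `D` is at least
`n / (98 D)` (in the first one even offline, in the second one for a suitable adversary).

The proof of (1) uses the number of the signings of small value (starting file `SigningsCount`), the
equality of the numbers of winnable sets and of good signings (helper814, `AdversarialSigns`), and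
inductions which show that Talagrand's bound for the exponential moment of the Hamming distance from
a set holds online, and in the random-turn game. (3) uses blocks of equal vectors.
-/

set_option autoImplicit false

namespace Pool.Agent.Results.MP_c81d26_co.RandomTurns

open Finset Pool.Agent.R378 Pool.Agent.R378.Game

/-- The vectors `v_1, …, v_n` lie in the closed Euclidean unit ball of `ℝ^d`. -/
def InBall {n d : ℕ} (v : Fin n → Fin d → ℝ) : Prop := ∀ i, ∑ k, v i k ^ 2 ≤ 1

/-- The signing `ε` has value at most `R`. -/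
def ValueLE {n d : ℕ} (v : Fin n → Fin d → ℝ) (R : ℝ) (ε : Fin n → ℤˣ) : Prop :=
  ∀ k, |∑ i, ((ε i : ℤ) : ℝ) * v i k| ≤ R

/-- The player, who chooses the signs with an index outside `J`, has a strategy `σ` which forces
that the signing has value at most `R`, whatever the signs with an index in `J` are. The sign
`σ j ε` depends only on the signs `ε_i`, `i < j`. -/
def Winnable {n d : ℕ} (v : Fin n → Fin d → ℝ) (R : ℝ) (J : Finset (Fin n)) : Prop :=
  ∃ σ : Fin n → (Fin n → ℤˣ) → ℤˣ,
    (∀ j ε ε', (∀ i, i < j → ε i = ε' i) → σ j ε = σ j ε') ∧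
    ∀ ε : Fin n → ℤˣ, (∀ j, j ∉ J → ε j = σ j ε) → ValueLE v R ε

/-- Online repair: the sign `τ ε j` depends only on the signs `ε_i`, `i ≤ j`; the signing `τ ε` has
value at most `R` for all `ε`, and it differs from `ε` in more than `s` places for at most `p`
signings `ε`. -/
def OnlineRepair {n d : ℕ} (v : Fin n → Fin d → ℝ) (R s p : ℝ) : Prop :=
  ∃ τ : (Fin n → ℤˣ) → Fin n → ℤˣ,
    (∀ ε ε' j, (∀ i, i ≤ j → ε i = ε' i) → τ ε j = τ ε' j) ∧ (∀ ε, ValueLE v R (τ ε)) ∧
    (Nat.card {ε : Fin n → ℤˣ // s < (univ.filter (fun i => ε i ≠ τ ε i)).card} : ℝ) ≤ p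

/-- Random turns: there is a strategy such that, for all adversaries, the value is at most `R` for
all sequences `c` of coins, and more than `s` turns are bought for at most `p` of the `2^n`
sequences. -/
def RandomTurnGame {n d : ℕ} (v : Fin n → Fin d → ℝ) (R s p : ℝ) : Prop :=
  ∃ S : Strategy n, ∀ P, IsPlay S P → (∀ c, ValueLE v R (P c)) ∧
    (Nat.card {c : Fin n → Bool // s < cost S P c} : ℝ) ≤ p

/-- Fixed turns: for every set `J` of turns of the adversary the set `J \ E J` is winnable, `E J`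
has more than `s` elements for at most `p` sets `J`, and the decision whether `j ∈ E J` depends only
on the elements `i ≤ j` of `J`. -/
def FixedTurns {n d : ℕ} (v : Fin n → Fin d → ℝ) (R s p : ℝ) : Prop :=
  ∃ E : Finset (Fin n) → Finset (Fin n),
    (∀ J J' j, (∀ i, i ≤ j → (i ∈ J ↔ i ∈ J')) → (j ∈ E J ↔ j ∈ E J')) ∧
    (∀ J, E J ⊆ J ∧ Winnable v R (J \ E J)) ∧
    (Nat.card {J : Finset (Fin n) // s < (E J).card} : ℝ) ≤ p

/-- All three problems. -/
def AllThree {n d : ℕ} (v : Fin n → Fin d → ℝ) (R s p : ℝ) : Prop :=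
  OnlineRepair v R s p ∧ RandomTurnGame v R s p ∧ FixedTurns v R s p

theorem AllThree.mono {n d : ℕ} {v : Fin n → Fin d → ℝ} {R s p p' : ℝ} (h : AllThree v R s p)
    (hp : p ≤ p') : AllThree v R s p' := by
  obtain ⟨⟨τ, h1, h2, h3⟩, ⟨S, hS⟩, ⟨E, h4, h5, h6⟩⟩ := h
  exact ⟨⟨τ, h1, h2, h3.trans hp⟩, ⟨S, fun P hP => ⟨(hS P hP).1, (hS P hP).2.trans hp⟩⟩,
    ⟨E, h4, h5, h6.trans hp⟩⟩

theorem core {n d : ℕ} (v : Fin n → Fin d → ℝ) (R a s : ℝ) (hs : 0 ≤ s)
    (h : 2 ^ n * Real.exp (-a) ≤
      (Pool.Agent.Results.MP_c81d26_co.SigningsCount.count v R : ℝ)) :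
    AllThree v R s (2 ^ n * Real.exp (a - s ^ 2 / n)) :=
  ⟨Rep.few_signings (ValueLE v R) a s hs h, few_costly n (ValueLE v R) a s hs h,
    Rep.few_positions (ValueLE v R) a s hs h⟩

theorem sq_div (n : ℕ) (K D : ℝ) : (K * n / D) ^ 2 / n = K ^ 2 * n / D ^ 2 := by
  rcases Nat.eq_zero_or_pos n with h | h
  · simp [h]
  · have hn : (n:ℝ) ≠ 0 := by positivity
    rcases eq_or_ne D 0 with hD | hD
    · simp [hD]
    · field_simp

theorem part1 : ∃ C : ℝ, ∀ (n d : ℕ) (v : Fin n → Fin d → ℝ) (D : ℝ), InBall v → 0 < D →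
    (∀ s : ℝ, 0 ≤ s →
      AllThree v (C * (1 + Real.log (1 + (min n d : ℕ))) ^ (1 / 4 : ℝ) + D) s
        (2 ^ n * Real.exp (15200 * n / D ^ 2 - s ^ 2 / n))) ∧
    AllThree v (C * (1 + Real.log (1 + (min n d : ℕ))) ^ (1 / 4 : ℝ) + D) (124 * n / D)
      (2 ^ n * Real.exp (-(176 * n / D ^ 2))) := by
  obtain ⟨C, hC⟩ := Pool.Agent.Results.MP_c81d26_co.SigningsCount.part2
  refine ⟨C, fun n d v D hv hD => ?_⟩
  have h : ∀ s : ℝ, 0 ≤ s →
      AllThree v (C * (1 + Real.log (1 + (min n d : ℕ))) ^ (1 / 4 : ℝ) + D) s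
        (2 ^ n * Real.exp (15200 * n / D ^ 2 - s ^ 2 / n)) :=
    fun s hs => core v _ _ s hs (hC n d v D hv hD)
  refine ⟨h, (h (124 * n / D) (by positivity)).mono (le_of_eq ?_)⟩
  rw [sq_div]
  congr 2
  ring

theorem part2 :
    (∃ c : ℝ, 0 < c ∧ ∀ (n d : ℕ) (v : Fin n → Fin d → ℝ), InBall v →
      ∃ ε : Fin n → ℝ, (∀ i, ε i = 1 ∨ ε i = -1) ∧ ∀ k, |∑ i, ε i * v i k| ≤ c) ↔
    ∃ C : ℝ, 0 < C ∧ ∀ (n d : ℕ) (v : Fin n → Fin d → ℝ), InBall v → ∀ D : ℝ, C ≤ D →
      AllThree v D (C * n / D) (2 ^ n * Real.exp (-(n / D ^ 2))) := by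
  constructor
  · intro h
    obtain ⟨C, hC, h2⟩ := Pool.Agent.Results.MP_c81d26_co.SigningsCount.part3.1 h
    refine ⟨C + 1, by positivity, fun n d v hv D hD => ?_⟩
    have hCD : C ≤ D := by linarith
    have hD0 : 0 < D := by linarith
    refine (core v D (C * n / D ^ 2) ((C + 1) * n / D) (by positivity) (h2 n d v hv D hCD)).mono ?_
    rw [sq_div]
    apply mul_le_mul_of_nonneg_left _ (by positivity)
    apply Real.exp_le_exp.2
    have h5 : C * n / D ^ 2 - (C + 1) ^ 2 * n / D ^ 2 = -((C ^ 2 + C + 1) * (n / D ^ 2)) := by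
      ring
    rw [h5]
    have h6 : 0 ≤ (n:ℝ) / D ^ 2 := by positivity
    nlinarith
  · rintro ⟨C, hC, h⟩
    refine ⟨C, hC, fun n d v hv => ?_⟩
    obtain ⟨⟨τ, _, hτ, _⟩, _⟩ := h n d v hv C le_rfl
    exact ⟨fun i => ((τ (fun _ => 1) i : ℤ) : ℝ),
      fun i => Pool.Agent.Results.MP_c81d26_co.SigningsCount.units_real _, hτ _⟩

theorem part3 (D : ℝ) (hD : 1 ≤ D) (N : ℕ) :
    ∃ (n d : ℕ) (v : Fin n → Fin d → ℝ), N ≤ n ∧ (∀ i, ∑ k, v i k ^ 2 = 1) ∧
      (∀ τ : (Fin n → ℤˣ) → Fin n → ℤˣ, (∀ ε, ValueLE v D (τ ε)) →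
        2 ^ n * (n / (98 * D)) ≤ ∑ ε, ((univ.filter (fun i => ε i ≠ τ ε i)).card : ℝ)) ∧
      (∀ S : Strategy n, (∀ P, IsPlay S P → ∀ c, ValueLE v D (P c)) →
        ∃ P, IsPlay S P ∧ 2 ^ n * (n / (98 * D)) ≤ ∑ c, (cost S P c : ℝ)) ∧
      ∀ E : Finset (Fin n) → Finset (Fin n), (∀ J, Winnable v D (J \ E J)) →
        2 ^ n * (n / (98 * D)) ≤ ∑ J, ((E J).card : ℝ) := by
  classical
  obtain ⟨m, hm0, hm1, hm2⟩ := Rep.exists_m D hD
  have hD0 : 0 < D := by linarith
  set v : Fin (N * m) → Fin N → ℝ := fun i k => if Rep.blk N m i = k then 1 else 0 with hv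
  have hsum : ∀ (ε : Fin (N * m) → ℤˣ) (k : Fin N),
      ∑ i, ((ε i : ℤ) : ℝ) * v i k = Khin.S (Rep.B N m k) ε := by
    intro ε k
    unfold Khin.S Rep.B
    rw [Finset.sum_filter]
    refine Finset.sum_congr rfl fun i _ => ?_
    simp only [hv]
    split_ifs <;> simp
  have hn : ((N * m : ℕ) : ℝ) / (98 * D) ≤ N * (D / 2) := by
    rw [div_le_iff₀ (by positivity)]
    push_cast
    have : (N:ℝ) * m ≤ N * (49 * D ^ 2) := mul_le_mul_of_nonneg_left hm2 (by positivity)
    calc (N:ℝ) * m ≤ N * (49 * D ^ 2) := this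
      _ = N * (D / 2) * (98 * D) := by ring
  have hn' : (2:ℝ) ^ (N * m) * (((N * m : ℕ) : ℝ) / (98 * D)) ≤ 2 ^ (N * m) * (N * (D / 2)) :=
    mul_le_mul_of_nonneg_left hn (by positivity)
  refine ⟨N * m, N, v, Nat.le_mul_of_pos_right N hm0, ?_, ?_, ?_, ?_⟩
  · intro i
    have h1 : ∀ k, v i k ^ 2 = if Rep.blk N m i = k then (1:ℝ) else 0 := by
      intro k
      simp only [hv]
      split_ifs <;> norm_num
    simp_rw [h1]
    simp
  · intro g hg
    have h1 := Rep.sharp_signings N m D hm1 g (fun ε k => by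
      have h3 := hg ε k
      rwa [hsum] at h3)
    refine hn'.trans (le_trans (mul_le_mul_of_nonneg_left ?_ (by positivity)) h1)
    have : (0:ℝ) ≤ N * D := by positivity
    nlinarith
  · intro S hS
    obtain ⟨P, hP1, hP2⟩ := Rep.sharp_game N m D hD0.le hm1 S (fun P hP c k => by
      have h3 := hS P hP c k
      rwa [hsum] at h3)
    exact ⟨P, hP1, hn'.trans hP2⟩
  · intro E hE
    have h1 := Rep.sharp_positions N m D hD0.le hm1 E (fun J k => by
      have h2 := Rep.wins_card (F := ValueLE v D) (J := J \ E J) (hE J) (Rep.B N m k) D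
        (fun ε hε => by
          have h3 := hε k
          rw [hsum] at h3
          exact (le_abs_self _).trans h3)
      rwa [Rep.card_B] at h2)
    exact hn'.trans h1

/-- **The Komlós problem with random turns and with online repair of random signs**: see the header
of the file. -/
theorem result :
    (∃ C : ℝ, ∀ (n d : ℕ) (v : Fin n → Fin d → ℝ) (D : ℝ), InBall v → 0 < D →
      (∀ s : ℝ, 0 ≤ s →
        AllThree v (C * (1 + Real.log (1 + (min n d : ℕ))) ^ (1 / 4 : ℝ) + D) s
          (2 ^ n * Real.exp (15200 * n / D ^ 2 - s ^ 2 / n))) ∧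
      AllThree v (C * (1 + Real.log (1 + (min n d : ℕ))) ^ (1 / 4 : ℝ) + D) (124 * n / D)
        (2 ^ n * Real.exp (-(176 * n / D ^ 2)))) ∧
    ((∃ c : ℝ, 0 < c ∧ ∀ (n d : ℕ) (v : Fin n → Fin d → ℝ), InBall v →
        ∃ ε : Fin n → ℝ, (∀ i, ε i = 1 ∨ ε i = -1) ∧ ∀ k, |∑ i, ε i * v i k| ≤ c) ↔
      ∃ C : ℝ, 0 < C ∧ ∀ (n d : ℕ) (v : Fin n → Fin d → ℝ), InBall v → ∀ D : ℝ, C ≤ D →
        AllThree v D (C * n / D) (2 ^ n * Real.exp (-(n / D ^ 2)))) ∧
    ∀ D : ℝ, 1 ≤ D → ∀ N : ℕ, ∃ (n d : ℕ) (v : Fin n → Fin d → ℝ), N ≤ n ∧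
      (∀ i, ∑ k, v i k ^ 2 = 1) ∧
      (∀ τ : (Fin n → ℤˣ) → Fin n → ℤˣ, (∀ ε, ValueLE v D (τ ε)) →
        2 ^ n * (n / (98 * D)) ≤ ∑ ε, ((univ.filter (fun i => ε i ≠ τ ε i)).card : ℝ)) ∧
      (∀ S : Strategy n, (∀ P, IsPlay S P → ∀ c, ValueLE v D (P c)) →
        ∃ P, IsPlay S P ∧ 2 ^ n * (n / (98 * D)) ≤ ∑ c, (cost S P c : ℝ)) ∧
      ∀ E : Finset (Fin n) → Finset (Fin n), (∀ J, Winnable v D (J \ E J)) →
        2 ^ n * (n / (98 * D)) ≤ ∑ J, ((E J).card : ℝ) :=
  ⟨part1, part2, part3⟩

end Pool.Agent.Results.MP_c81d26_co.RandomTurns
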